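import Pool.Agent.Helper64.FL.StE

set_option autoImplicit false

namespace Pool.Agent.Helper64.FL

open Pool.Agent.Helper64.CT Pool.Agent.Helper64.DT
open Pool.Agent.Helper64.HG (Ovl Model Circ IC HellyCircle ChordModel)

theorem chn_okp {s : Sk} {i j : ℕ} (h : okp s i j = true) : i < s.n ∧ j < s.n ∧ i ≠ j := by
  unfold okp at h
  simp only [Bool.and_eq_true, Bool.not_eq_true', Nat.blt_eq] at h
  obtain ⟨⟨h1, h2⟩, h3⟩ := h
  refine ⟨h1, h2, fun e => ?_⟩
  subst e
  rw [Nat.beq_refl] at h3
  exact absurd h3 (by simp)

theorem chn_nall {s : Sk} {i : ℕ} : ∀ {l : List ℕ}, nall s i l = true →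
    ∀ k ∈ l, db s i k = true ∧ i < s.n ∧ k < s.n ∧ i ≠ k
  | [], _, k, hk => absurd hk (by simp)
  | j :: l, h, k, hk => by
    unfold nall at h
    simp only [Bool.and_eq_true] at h
    obtain ⟨⟨h1, h2⟩, h3⟩ := h
    rcases List.mem_cons.1 hk with rfl | hk
    · exact ⟨h1, chn_okp h2⟩
    · exact chn_nall h3 k hk

theorem st_CHN (h1 : ST_TBS) (h2 : ST_IPL) : ST_CHN := by
  intro V G s f m i l
  induction l generalizing i with
  | nil =>
    intro L sg H1 H2 hn inj hmap hi hp hd hc hs hm hchn
    have hsg : sg = [] := by
      cases sg with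
      | nil => rfl
      | cons g t => exact absurd hchn (by simp [chn])
    subst hsg
    have hL : L = [] := List.map_eq_nil_iff.1 hmap
    subst hL
    refine ⟨[], ⟨by simp, by simp, by simp, trivial⟩, ?_, ?_, by simp, by simp⟩
    · intro x
      simp
    · intro j hj
      simp only [List.getLast?_singleton, Option.some.injEq] at hj
      subst hj
      rfl
  | cons j l ih =>
    intro L sg H1 H2 hn inj hmap hi hp hd hc hs hm hchn
    unfold chn at hchn
    rw [Bool.and_eq_true] at hchn
    obtain ⟨hnall, hchn⟩ := hchn
    have hna := chn_nall hnall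
    have hm' : ∀ k ∈ j :: l, tb m k = true := fun k hk => hm k (List.mem_cons_of_mem _ hk)
    have hmi : tb m i = true := hm i (by simp)
    -- common facts about the vertex `i` and the tail part
    have key : ∀ (L' : List (Seg × List V)) (M' : List V), (∀ p ∈ L', p ∈ L) → i ≠ j → j < s.n →
        IPt G (f j :: M') →
        (∀ x, x ∈ f j :: M' ↔ (∃ k ∈ j :: l, x = f k) ∨ ∃ p ∈ L', x ∈ p.2) →
        (∀ p ∈ L', p.1.u ∈ j :: l ∧ p.1.w ∈ j :: l ∧
          ∀ k, tb m k = true → k ≠ p.1.u → k ≠ p.1.w → tb p.1.cl k = true) →
        (∀ x ∈ f j :: M', f i ≠ x) ∧ (∀ x ∈ M', ¬ G.Adj (f i) x) ∧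
        (∀ x ∈ M', (∃ k ∈ l, k ≠ j ∧ x = f k) ∨ ∃ p ∈ L', x ∈ p.2) := by
      intro L' M' hL' hij hj hM hmem hcl
      have hjM : ∀ x ∈ M', f j ≠ x := hM.1
      have hij' : ∀ k ∈ j :: l, i ≠ k := by
        intro k hk
        rcases List.mem_cons.1 hk with rfl | hk
        · exact hij
        · exact (hna k hk).2.2.2
      have hkn : ∀ k ∈ j :: l, k < s.n := by
        intro k hk
        rcases List.mem_cons.1 hk with rfl | hk
        · exact hj
        · exact (hna k hk).2.2.1
      have h3 : ∀ x ∈ M', (∃ k ∈ l, k ≠ j ∧ x = f k) ∨ ∃ p ∈ L', x ∈ p.2 := by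
        intro x hx
        rcases (hmem x).1 (List.mem_cons_of_mem _ hx) with ⟨k, hk, rfl⟩ | h
        · have hkj : k ≠ j := by
            rintro rfl
            exact hjM _ hx rfl
          rcases List.mem_cons.1 hk with h | hk
          · exact absurd h hkj
          · exact Or.inl ⟨k, hk, hkj, rfl⟩
        · exact Or.inr h
      refine ⟨?_, ?_, h3⟩
      · intro x hx he
        rcases (hmem x).1 hx with ⟨k, hk, rfl⟩ | ⟨p, hp', hx'⟩
        · exact hij' k hk (inj i k hi (hkn k hk) he)
        · exact hd p (hL' p hp') x hx' i hi he.symm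
      · intro x hx
        rcases h3 x hx with ⟨k, hk, hkj, rfl⟩ | ⟨p, hp', hx'⟩
        · obtain ⟨e1, e2, e3, e4⟩ := hna k hk
          exact H2 i k (by omega) (by omega) e1 e4
        · obtain ⟨q1, q2, q3⟩ := hcl p hp'
          exact hc p (hL' p hp') i (q3 i hmi (hij' _ q1) (hij' _ q2)) hi x hx'
    by_cases hE : eb s i j = true
    · rw [hE, cond_true, Bool.and_eq_true] at hchn
      obtain ⟨ho, hchn⟩ := hchn
      obtain ⟨_, hj, hij⟩ := chn_okp ho
      obtain ⟨M', hM, hmem, hlast, hln, hcl⟩ :=
        ih j L sg H1 H2 hn inj hmap hj hp hd hc hs hm' hchn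
      obtain ⟨k1, k2, k3⟩ := key L M' (fun p h => h) hij hj hM hmem hcl
      refine ⟨f j :: M', ⟨k1, ?_, k2, hM⟩, ?_, ?_, ?_, ?_⟩
      · intro b hb
        simp only [List.head?_cons, Option.mem_def, Option.some.injEq] at hb
        subst hb
        exact H1 i j (by omega) (by omega) hE hij
      · intro x
        rw [List.mem_cons, hmem x]
        simp only [List.mem_cons, exists_eq_or_imp, or_assoc]
      · intro k hk
        rw [List.getLast?_cons_cons] at hk
        rw [List.getLast?_cons_cons]
        exact hlast k hk
      · intro k hk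
        rcases List.mem_cons.1 hk with rfl | hk
        · exact hj
        · exact hln k hk
      · intro p hp'
        obtain ⟨q1, q2, q3⟩ := hcl p hp'
        exact ⟨List.mem_cons_of_mem _ q1, List.mem_cons_of_mem _ q2, q3⟩
    · rw [Bool.not_eq_true] at hE
      rw [hE, cond_false] at hchn
      cases sg with
      | nil => exact absurd hchn (by simp)
      | cons g t =>
        simp only [Bool.and_eq_true] at hchn
        obtain ⟨⟨⟨⟨e1, e2⟩, ho⟩, e3⟩, hchn⟩ := hchn
        have hgu : g.u = i := Nat.eq_of_beq_eq_true e1
        have hgw : g.w = j := Nat.eq_of_beq_eq_true e2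
        obtain ⟨_, hj, hij⟩ := chn_okp ho
        cases L with
        | nil => exact absurd hmap (by simp)
        | cons q L' =>
          rw [List.map_cons, List.cons.injEq] at hmap
          obtain ⟨hq, hmap⟩ := hmap
          have hs' := List.pairwise_cons.1 hs
          have hL' : ∀ p ∈ L', p ∈ q :: L' := fun p h => List.mem_cons_of_mem _ h
          obtain ⟨M', hM, hmem, hlast, hln, hcl⟩ :=
            ih j L' t H1 H2 hn inj hmap hj (fun p h => hp p (hL' p h)) (fun p h => hd p (hL' p h))
              (fun p h => hc p (hL' p h)) hs'.2 hm' hchn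
          obtain ⟨k1, k2, k3⟩ := key L' M' hL' hij hj hM hmem hcl
          have hsub : ∀ k, tb m k = true → k ≠ i → k ≠ j → tb q.1.cl k = true := by
            intro k hk hki hkj
            obtain ⟨t1, -, -, -, -, -, t7, -, -, -⟩ := h1
            have h := (t7 _ _).1 e3 k hk
            rw [t1, t1] at h
            have a1 : decide (i = k) = false := decide_eq_false (fun h => hki h.symm)
            have a2 : decide (j = k) = false := decide_eq_false (fun h => hkj h.symm)
            rw [a1, a2, Bool.or_false, Bool.or_false] at h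
            rw [hq]
            exact h
          have hqp := hp q (by simp)
          rw [hq, hgu, hgw] at hqp
          obtain ⟨-, p2, -, -⟩ := h2 V G
          have hI : IPt G ((f i :: q.2) ++ f j :: M') := by
            rw [p2]
            refine ⟨by simpa using hqp, hM, ?_⟩
            intro x hx y hy
            rcases List.mem_cons.1 hx with rfl | hx
            · exact ⟨k1 y (List.mem_cons_of_mem _ hy), k2 y hy⟩
            · rcases k3 y hy with ⟨k, hk, hkj, rfl⟩ | ⟨p, hp', hy'⟩
              · obtain ⟨d1, d2, d3, d4⟩ := hna k hk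
                refine ⟨hd q (by simp) x hx k d3, fun ha => ?_⟩
                exact hc q (by simp) k (hsub k (hm' k (List.mem_cons_of_mem _ hk))
                  (fun h => d4 h.symm) hkj) d3 x hx ha.symm
              · exact hs'.1 p hp' x hx y hy'
          refine ⟨q.2 ++ f j :: M', by simpa using hI, ?_, ?_, ?_, ?_⟩
          · intro x
            rw [List.mem_cons, List.mem_append, hmem x]
            simp only [List.mem_cons, exists_eq_or_imp]
            constructor
            · rintro (h | h | (h | h) | h)
              · exact Or.inl (Or.inl h)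
              · exact Or.inr (Or.inl h)
              · exact Or.inl (Or.inr (Or.inl h))
              · exact Or.inl (Or.inr (Or.inr h))
              · exact Or.inr (Or.inr h)
            · rintro ((h | h | h) | h | h)
              · exact Or.inl h
              · exact Or.inr (Or.inr (Or.inl (Or.inl h)))
              · exact Or.inr (Or.inr (Or.inl (Or.inr h)))
              · exact Or.inr (Or.inl h)
              · exact Or.inr (Or.inr (Or.inr h))
          · intro k hk
            rw [List.getLast?_cons_cons] at hk
            have := hlast k hk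
            rw [← List.cons_append, List.getLast?_append_of_ne_nil]
            · exact this
            · simp
          · intro k hk
            rcases List.mem_cons.1 hk with rfl | hk
            · exact hj
            · exact hln k hk
          · intro p hp'
            rcases List.mem_cons.1 hp' with rfl | hp'
            · rw [hq, hgu, hgw, ← hq]
              exact ⟨by simp, by simp, hsub⟩
            · obtain ⟨q1, q2, q3⟩ := hcl p hp'
              exact ⟨List.mem_cons_of_mem _ q1, List.mem_cons_of_mem _ q2, q3⟩

end Pool.Agent.Helper64.FL
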