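import Pool.Agent.Helper64.FL.StG

set_option autoImplicit false

/-! Full list for MP_866009_co: ST_CI3. -/

namespace Pool.Agent.Helper64.FL

open Pool.Agent.Helper64.CT Pool.Agent.Helper64.DT
open Pool.Agent.Helper64.HG (Ovl Model Circ IC HellyCircle ChordModel)

/-- different and nonadjacent to all vertices of a list -/
def ci3_cl {V : Type} (G : SimpleGraph V) (w : V) (l : List V) : Prop :=
  ∀ x ∈ l, w ≠ x ∧ ¬ G.Adj w x

theorem ci3_sy {V : Type} {G : SimpleGraph V} {x y : V} (h : x ≠ y ∧ ¬ G.Adj x y) :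
    y ≠ x ∧ ¬ G.Adj y x := ⟨h.1.symm, fun h' => h.2 h'.symm⟩

theorem ci3_pth {V : Type} {G : SimpleGraph V} {a w : V} {l : List V} (h : Pth G a l w) :
    (a = w → l = []) ∧ (a ≠ w → IPt G (a :: (l ++ [w]))) := by
  rcases h with h | h
  · exact ⟨fun _ => h.2, fun h' => absurd h.1 h'⟩
  · exact ⟨fun h' => absurd h' h.1, fun _ => h.2⟩

/-- the last two edges of a path -/
theorem ci3_split {V : Type} (G : SimpleGraph V) (hP : ST_PTB) {a b : V} {M : List V}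
    (hp : Pth G a M b) (hab : a ≠ b) (hnab : ¬ G.Adj a b) :
    ∃ (L : List V) (e q : V), Pth G a L e ∧ G.Adj e q ∧ G.Adj q b ∧ q ∈ M ∧ q ≠ a ∧
      (∀ u, (u = a ∨ u ∈ L ∨ u = e) → (u = a ∨ u ∈ M) ∧ (u ≠ b ∧ ¬ G.Adj u b) ∧ u ≠ q) ∧
      (∀ u ∈ L, ¬ G.Adj u q) ∧ (a ≠ e → ¬ G.Adj a q) := by
  obtain ⟨hrev, hnd, hcons, hnil, _, htriv⟩ := hP V G
  have h1 : Pth G b M.reverse a := hrev _ _ _ hp
  have hmem : ∀ u, u ∈ M.reverse ↔ u ∈ M := fun u => List.mem_reverse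
  rcases hM : M.reverse with _ | ⟨q, N⟩
  · rw [hM] at h1
    rcases hnil _ _ h1 with h | h
    · exact absurd h.symm hab
    · exact absurd h.symm hnab
  · rw [hM] at h1
    obtain ⟨hbq, hba, hnba, hqa, hpN, hN⟩ := hcons _ _ _ _ h1
    have hqM : q ∈ M := (hmem q).1 (by rw [hM]; exact List.mem_cons_self)
    have hNM : ∀ u ∈ N, u ∈ M := fun u hu => (hmem u).1 (by rw [hM]; exact List.mem_cons_of_mem _ hu)
    rcases N with _ | ⟨e, N'⟩
    · rcases hnil _ _ hpN with h | h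
      · exact absurd h hqa
      · refine ⟨[], a, q, htriv a, h.symm, hbq.symm, hqM, hqa, ?_, ?_, ?_⟩
        · intro u hu
          have hu' : u = a := by
            rcases hu with h' | h' | h'
            · exact h'
            · exact absurd h' List.not_mem_nil
            · exact h'
          subst hu'
          exact ⟨Or.inl rfl, ⟨hab, hnab⟩, hqa.symm⟩
        · intro u hu
          exact absurd hu List.not_mem_nil
        · intro h'
          exact absurd rfl h'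
    · obtain ⟨hqe, _, hnqa, hea, hpe, hN'⟩ := hcons _ _ _ _ hpN
      have hb := hN
      refine ⟨N'.reverse, e, q, hrev _ _ _ hpe, hqe.symm, hbq.symm, hqM, hqa, ?_, ?_, ?_⟩
      · intro u hu
        rcases hu with h' | h' | h'
        · subst h'
          exact ⟨Or.inl rfl, ⟨hab, hnab⟩, hqa.symm⟩
        · have hu' : u ∈ N' := List.mem_reverse.1 h'
          have h2 := hN u (List.mem_cons_of_mem _ hu')
          exact ⟨Or.inr (hNM u (List.mem_cons_of_mem _ hu')), ci3_sy h2, (hN' u hu').1.symm⟩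
        · subst h'
          have h2 := hN u List.mem_cons_self
          exact ⟨Or.inr (hNM u List.mem_cons_self), ci3_sy h2, hqe.ne.symm⟩
      · intro u hu h'
        exact (hN' u (List.mem_reverse.1 hu)).2 h'.symm
      · intro _ h'
        exact hnqa h'.symm

theorem st_CI3 (hB : ST_CIB) (hN : ST_CNB) (hP : ST_PTB) (hSP : ST_SPN) (hS : ST_SP3)
    (hCU : ST_CUT) (h0 : ST_CI0) : ST_CI3 := by
  intro V G hR hNo v a b c hC o hov ⟨hob, hoc⟩
  obtain ⟨_, _, nab, nac, nbc, dab, dac, dbc, _, _, _⟩ := (hB V G).2.1 _ _ _ _ _ hC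
  have hoa : ¬ G.Adj o a := fun h => h0 V G hR v a b c hC o hov ⟨h, hob, hoc⟩
  have noa : o ≠ a := by
    rintro rfl
    exact dab hob
  obtain ⟨_, hnd, _, _, _, _⟩ := hP V G
  -- the path from `a` to `b` in `Far c`
  have hcon : Cn G (Far G c) a b := by
    have h1 := hC.ab
    rw [Set.univ_inter] at h1
    exact h1
  have hcon2 : Cn G (Far G b) c a := by
    have h1 := hC.ac
    rw [Set.univ_inter] at h1
    exact ((hN V G).1 _ _ _ h1).2
  obtain ⟨y, M0, z, hyA, _, hzB, _, hpM0, hM0, _⟩ := hSP V G (Far G c) {a} {b}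
    ⟨a, rfl, b, rfl, hcon⟩
  have hya : y = a := hyA
  have hzb : z = b := hzB
  subst hya
  subst hzb
  obtain ⟨L, e, q, hpL, heq, hqz, hqM, hqa, hLs, hLq, hya'⟩ := ci3_split G hP hpM0 nab dab
  -- vertices of the path are far from `c`
  have hFc : ∀ u, (u = y ∨ u ∈ L ∨ u = e) → u ≠ c ∧ ¬ G.Adj c u := by
    intro u hu
    rcases (hLs u hu).1 with h | h
    · subst h
      exact ⟨nac, fun h' => dac h'.symm⟩
    · exact (hM0 u h).1
  have hFb : ∀ u, (u = y ∨ u ∈ L ∨ u = e) → u ≠ z ∧ ¬ G.Adj z u := fun u hu =>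
    ⟨(hLs u hu).2.1.1, fun h' => (hLs u hu).2.1.2 h'.symm⟩
  have hqc : q ≠ c ∧ ¬ G.Adj c q := (hM0 q hqM).1
  -- the shortest connection to `c`
  obtain ⟨r, M, r', hpM, hin, ⟨ua, huaA, _, huar⟩, ⟨ub, hubB, _, hubr⟩, hM, hrr⟩ :=
    hS V G (Far G z) {c} {u | u = y ∨ u ∈ L ∨ u = e} c y hcon2 rfl (Or.inl rfl)
      (fun u hu w hw => by
        have hu' : u = c := hu
        subst hu'
        exact ⟨(hFc w hw).1.symm, (hFc w hw).2⟩)
  have hua : ua = c := huaA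
  subst hua
  -- first neighbour
  have h1 : PtK G Set.univ y L e := ⟨trivial, trivial, fun _ _ => trivial, hpL⟩
  have h2 : G.Adj y r' ∨ G.Adj e r' ∨ ∃ u ∈ L, G.Adj u r' := by
    rcases hubB with h | h | h
    · rw [← h]; exact Or.inl hubr
    · exact Or.inr (Or.inr ⟨ub, h, hubr⟩)
    · rw [← h]; exact Or.inr (Or.inl hubr)
  obtain ⟨l1, f, l2, hO, hl1, hl2, hf, _⟩ := hCU V G Set.univ (fun u => G.Adj u r') y e L h1 h2
  have fB : f = y ∨ f ∈ L ∨ f = e := by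
    rcases hf with h | h | h
    · exact Or.inl h
    · exact Or.inr (Or.inr h)
    · exact Or.inr (Or.inl h)
  have yB : y = y ∨ y ∈ L ∨ y = e := Or.inl rfl
  have eB : e = y ∨ e ∈ L ∨ e = e := Or.inr (Or.inr rfl)
  have memL : ∀ {u : V}, u ∈ L → (u = y ∨ u ∈ L ∨ u = e) := fun hu => Or.inr (Or.inl hu)
  have rR : r = r ∨ r ∈ M ∨ r = r' := Or.inl rfl
  have r'R : r' = r ∨ r' ∈ M ∨ r' = r' := Or.inr (Or.inr rfl)
  have hRR : ∀ u, (u = r ∨ u ∈ M ∨ u = r') → (u ≠ z ∧ ¬ G.Adj z u) ∧ u ≠ ua ∧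
      ∀ w, (w = y ∨ w ∈ L ∨ w = e) → u ≠ w := by
    intro u hu
    obtain ⟨g1, g2, g3⟩ := hin u hu
    refine ⟨g1, g2, ?_⟩
    intro w hw huw
    exact g3 (huw ▸ hw)
  have hMM : ∀ x ∈ M, (∀ w, (w = y ∨ w ∈ L ∨ w = e) → w ≠ x ∧ ¬ G.Adj w x) ∧
      (ua ≠ x ∧ ¬ G.Adj ua x) ∧ (z ≠ x ∧ ¬ G.Adj z x) := by
    intro x hx
    obtain ⟨g1, g2, g3⟩ := hRR x (Or.inr (Or.inl hx))
    refine ⟨?_, ?_, ⟨g1.1.symm, g1.2⟩⟩
    · intro w hw
      refine ⟨(g3 w hw).symm, ?_⟩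
      intro h'
      exact hM x hx w (hFb w hw) (Or.inr hw) h'.symm
    · refine ⟨g2.symm, ?_⟩
      intro h'
      exact hM x hx ua ⟨nbc.symm, fun h'' => dbc h''⟩ (Or.inl rfl) h'.symm
  obtain ⟨rM, r'M, _⟩ := hnd _ _ _ hpM
  obtain ⟨yl1, fl1, _⟩ := hnd _ _ _ hO.p1
  obtain ⟨fl2, el2, _⟩ := hnd _ _ _ hO.p2
  have c1 : y ≠ f → f ≠ e → y ≠ e ∧ ¬ G.Adj y e := hO.aw
  have c2 : y ≠ e → y ≠ q ∧ ¬ G.Adj y q := fun h => ⟨hqa.symm, hya' h⟩
  have c3 : f ≠ e → f ≠ q ∧ ¬ G.Adj f q := by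
    intro h
    refine ⟨(hLs f fB).2.2, ?_⟩
    rcases fB with h' | h' | h'
    · rw [h'] at h ⊢
      exact hya' h
    · exact hLq f h'
    · exact absurd h' h
  have c4 : r ≠ r' → r' ≠ ua ∧ ¬ G.Adj r' ua := fun h =>
    ⟨(hRR r' r'R).2.1, (hrr h ua ⟨nbc.symm, fun h'' => dbc h''⟩).2 rfl⟩
  have c5 : y ≠ f → y ≠ r' ∧ ¬ G.Adj y r' := fun h =>
    ⟨((hRR r' r'R).2.2 y yB).symm, hO.ft h⟩
  have c6 : r ≠ r' → ∀ w, (w = y ∨ w ∈ L ∨ w = e) → r ≠ w ∧ ¬ G.Adj r w := fun h w hw =>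
    ⟨(hRR r rR).2.2 w hw, (hrr h w (hFb w hw)).1 hw⟩
  have n1 : y ≠ f → y ≠ e := by
    intro h
    by_cases h' : f = e
    · rw [← h']; exact h
    · exact (hO.aw h h').1
  have n2 : f ≠ e → y ≠ e := by
    intro h
    by_cases h' : y = f
    · rw [h']; exact h
    · exact (hO.aw h' h).1
  have K1 : ∀ x ∈ l1, v ≠ x ∧ y ≠ x ∧ z ≠ x ∧ ua ≠ x ∧ o ≠ x ∧ f ≠ x ∧ e ≠ x ∧ q ≠ x ∧ r ≠ x ∧
      r' ≠ x := by
    intro x hx
    have hxL := hl1 x hx
    have hxB := memL hxL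
    refine ⟨?_, fun h => yl1 (h ▸ hx), (hFb x hxB).1.symm, (hFc x hxB).1.symm, ?_,
      fun h => fl1 (h ▸ hx), ?_, (hLs x hxB).2.2.symm, (hRR r rR).2.2 x hxB,
      (hRR r' r'R).2.2 x hxB⟩
    · rintro rfl; exact (hFc v hxB).2 hC.vc.symm
    · rintro rfl; exact (hFc o hxB).2 hoc.symm
    · intro h
      by_cases h' : f = e
      · rw [← h'] at h; exact fl1 (h ▸ hx)
      · exact (hO.l1w h' x hx).1 h.symm
  have K1' : ∀ x ∈ l1, ¬ G.Adj z x ∧ ¬ G.Adj ua x ∧ (e ≠ f → ¬ G.Adj e x) ∧ ¬ G.Adj q x ∧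
      ¬ G.Adj r x ∧ ¬ G.Adj r' x := by
    intro x hx
    have hxL := hl1 x hx
    have hxB := memL hxL
    have hxr : ¬ G.Adj r' x := fun h => hO.fl x hx h.symm
    refine ⟨(hFb x hxB).2, (hFc x hxB).2, ?_, fun h => hLq x hxL h.symm, ?_, hxr⟩
    · intro h h'
      exact (hO.l1w (Ne.symm h) x hx).2 h'.symm
    · by_cases h : r = r'
      · rw [h]; exact hxr
      · exact (c6 h x hxB).2
  have K2 : ∀ x ∈ l2, v ≠ x ∧ y ≠ x ∧ z ≠ x ∧ ua ≠ x ∧ o ≠ x ∧ f ≠ x ∧ e ≠ x ∧ q ≠ x ∧ r ≠ x ∧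
      r' ≠ x := by
    intro x hx
    have hxL := hl2 x hx
    have hxB := memL hxL
    refine ⟨?_, ?_, (hFb x hxB).1.symm, (hFc x hxB).1.symm, ?_,
      fun h => fl2 (h ▸ hx), fun h => el2 (h ▸ hx), (hLs x hxB).2.2.symm, (hRR r rR).2.2 x hxB,
      (hRR r' r'R).2.2 x hxB⟩
    · rintro rfl; exact (hFc v hxB).2 hC.vc.symm
    · intro h
      by_cases h' : y = f
      · rw [h'] at h; exact fl2 (h ▸ hx)
      · exact (hO.al2 h' x hx).1 h
    · rintro rfl; exact (hFc o hxB).2 hoc.symm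
  have K2' : ∀ x ∈ l2, (y ≠ f → ¬ G.Adj y x) ∧ ¬ G.Adj z x ∧ ¬ G.Adj ua x ∧ ¬ G.Adj q x := by
    intro x hx
    have hxL := hl2 x hx
    have hxB := memL hxL
    exact ⟨fun h => (hO.al2 h x hx).2, (hFb x hxB).2, (hFc x hxB).2, fun h => hLq x hxL h.symm⟩
  have K3 : ∀ x ∈ M, v ≠ x ∧ y ≠ x ∧ z ≠ x ∧ ua ≠ x ∧ o ≠ x ∧ f ≠ x ∧ e ≠ x ∧ q ≠ x ∧ r ≠ x ∧
      r' ≠ x := by
    intro x hx
    obtain ⟨g1, g2, g3⟩ := hMM x hx
    refine ⟨?_, (g1 y yB).1, g3.1, g2.1, ?_, (g1 f fB).1, (g1 e eB).1, ?_,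
      fun h => rM (h ▸ hx), fun h => r'M (h ▸ hx)⟩
    · rintro rfl; exact g3.2 hC.vb.symm
    · rintro rfl; exact g3.2 hob.symm
    · rintro rfl; exact g3.2 hqz.symm
  have tM := ci3_pth hpM
  have t1 := ci3_pth hO.p1
  have t2 := ci3_pth hO.p2
  have hsep : [l1, l2, M].Pairwise (fun A B => ∀ x ∈ A, ∀ y ∈ B, x ≠ y ∧ ¬ G.Adj x y) := by
    simp only [List.pairwise_cons, List.mem_cons, List.not_mem_nil, or_false,
      forall_eq_or_imp, forall_eq, IsEmpty.forall_iff, implies_true, List.Pairwise.nil,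
      and_true]
    refine ⟨⟨hO.l12, ?_⟩, ?_⟩
    · intro x hx w hw
      exact (hMM w hw).1 x (memL (hl1 x hx))
    · intro x hx w hw
      exact (hMM w hw).1 x (memL (hl2 x hx))
  refine hNo preA3 (by simp [preCIs])
    (fun i => ([v, y, z, ua, o, f, e, q, r, r'] : List V).getD i v)
    [l1, l2, M] ⟨?_, ?_, ?_, ?_, ?_, ?_, ?_, ?_, ?_, ?_, hsep⟩
  · simp [preA3]
    exact ⟨hC.va, hC.vb, hC.vc, hob, hoc, heq, hqz, huar, hO.ff.symm⟩
  · simp [preA3]
    exact ⟨⟨noa, hoa⟩, ⟨nab, dab⟩, ⟨nac, dac⟩, ⟨nbc, dbc⟩, (hLs f fB).2.1,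
      ⟨(hFc f fB).1, fun h => (hFc f fB).2 h.symm⟩, (hLs e eB).2.1,
      ⟨(hFc e eB).1, fun h => (hFc e eB).2 h.symm⟩, ⟨hqc.1, fun h => hqc.2 h.symm⟩,
      ⟨(hRR r rR).1.1, fun h => (hRR r rR).1.2 h.symm⟩,
      ⟨(hRR r' r'R).1.1, fun h => (hRR r' r'R).1.2 h.symm⟩⟩
  · simp [preA3]
    exact ⟨hqa, (hLs f fB).2.2.symm, hov.symm, (hRR r' r'R).2.2 y yB, (hRR r' r'R).2.2 e eB,
      (hRR r rR).2.2 y yB, (hRR r rR).2.2 f fB, (hRR r rR).2.2 e eB⟩
  · simp [preA3]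
    exact ⟨fun hh => c1 (hh 1 5 (Or.inl ⟨rfl, rfl⟩)) (hh 5 6 (Or.inr ⟨rfl, rfl⟩)), c2, c3, c4, c5,
      fun hh => c6 hh y yB, fun hh => c6 hh f fB, fun hh => c6 hh e eB⟩
  · simp [preA3]
    exact ⟨n1, n2⟩
  · simp [preA3]
  · simp [preA3]
    exact ⟨t1.1, t2.1, tM.1⟩
  · simp [preA3]
    exact ⟨t1.2, t2.2, tM.2⟩
  · intro y' hy i hi hm
    simp [preA3] at hy hi
    rcases hy with rfl | rfl | rfl
    · obtain ⟨k0, k1, k2, k3, k4, k5, k6, k7, k8, k9⟩ := K1 _ hm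
      interval_cases i
      · exact k0 rfl
      · exact k1 rfl
      · exact k2 rfl
      · exact k3 rfl
      · exact k4 rfl
      · exact k5 rfl
      · exact k6 rfl
      · exact k7 rfl
      · exact k8 rfl
      · exact k9 rfl
    · obtain ⟨k0, k1, k2, k3, k4, k5, k6, k7, k8, k9⟩ := K2 _ hm
      interval_cases i
      · exact k0 rfl
      · exact k1 rfl
      · exact k2 rfl
      · exact k3 rfl
      · exact k4 rfl
      · exact k5 rfl
      · exact k6 rfl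
      · exact k7 rfl
      · exact k8 rfl
      · exact k9 rfl
    · obtain ⟨k0, k1, k2, k3, k4, k5, k6, k7, k8, k9⟩ := K3 _ hm
      interval_cases i
      · exact k0 rfl
      · exact k1 rfl
      · exact k2 rfl
      · exact k3 rfl
      · exact k4 rfl
      · exact k5 rfl
      · exact k6 rfl
      · exact k7 rfl
      · exact k8 rfl
      · exact k9 rfl
  · intro y' hy i hi hU hu hw x hx
    simp [preA3] at hy hi
    rcases hy with rfl | rfl | rfl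
    · obtain ⟨k2, k3, k6, k7, k8, k9⟩ := K1' _ hx
      interval_cases i
      · exact absurd (by simp) hU
      · exact absurd rfl hu
      · exact k2
      · exact k3
      · exact absurd (by simp) hU
      · exact absurd rfl hw
      · exact k6 hw
      · exact k7
      · exact k8
      · exact k9
    · obtain ⟨k1, k2, k3, k7⟩ := K2' _ hx
      interval_cases i
      · exact absurd (by simp) hU
      · exact k1 hu
      · exact k2
      · exact k3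
      · exact absurd (by simp) hU
      · exact absurd rfl hu
      · exact absurd rfl hw
      · exact k7
      · exact absurd (by simp) hU
      · exact absurd (by simp) hU
    · obtain ⟨g1, g2, g3⟩ := hMM _ hx
      interval_cases i
      · exact absurd (by simp) hU
      · exact (g1 y yB).2
      · exact g3.2
      · exact g2.2
      · exact absurd (by simp) hU
      · exact (g1 f fB).2
      · exact (g1 e eB).2
      · exact absurd (by simp) hU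
      · exact absurd rfl hu
      · exact absurd rfl hw

end Pool.Agent.Helper64.FL
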