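import Pool.Agent.Helper64.FL.StC

/-! QCD: the arm at `x` is a single vertex attached to the other arm. -/

set_option autoImplicit false

namespace Pool.Agent.Helper64.FL

open Pool.Agent.Helper64.CT Pool.Agent.Helper64.DT
open Pool.Agent.Helper64.HG (Ovl Model Circ IC HellyCircle ChordModel)

theorem qcd_pth {V : Type} {G : SimpleGraph V} {a w : V} {l : List V} (h : Pth G a l w)
    (hne : a ≠ w) : IPt G (a :: (l ++ [w])) := by
  rcases h with ⟨h, -⟩ | ⟨-, h⟩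
  · exact absurd h hne
  · exact h

theorem qcd_tri {V : Type} {G : SimpleGraph V} {a w : V} {l : List V} (h : Pth G a l w)
    (he : a = w) : l = [] := by
  rcases h with ⟨-, h⟩ | ⟨h, -⟩
  · exact h
  · exact absurd he h

theorem qcd_ipt_tail {V : Type} {G : SimpleGraph V} {w : V} : ∀ {l : List V},
    IPt G (l ++ [w]) → w ∉ l := by
  intro l
  induction l with
  | nil => intro _ h; exact absurd h (by simp)
  | cons c l ih =>
    intro h hm
    obtain ⟨h1, -, -, h4⟩ := h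
    rcases List.mem_cons.1 hm with e | e
    · exact h1 w (by simp) e.symm
    · exact ih h4 e

theorem qcd_ends {V : Type} {G : SimpleGraph V} {a w : V} {l : List V} (h : Pth G a l w) :
    a ∉ l ∧ w ∉ l := by
  rcases h with ⟨-, h⟩ | ⟨-, h⟩
  · subst h; simp
  · obtain ⟨h1, -, -, h4⟩ := h
    exact ⟨fun hm => h1 a (by simp [hm]) rfl, qcd_ipt_tail h4⟩

theorem st_QCD (hC : ST_CUT) : ST_QCD := by
  intro V G hN x y z a b lb b' m m' xy xz yz xa ma aFy aFz hArm hx hz hm zm zm' mm' mFx mFy m'Fx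
    m'Fy hex
  have hpk : PtK G (PV b lb b') b lb b' :=
    ⟨Or.inl rfl, Or.inr (Or.inr rfl), fun u hu => Or.inr (Or.inl hu), hArm.pth⟩
  have hex' : G.Adj a b ∨ G.Adj a b' ∨ ∃ u ∈ lb, G.Adj a u := by
    obtain ⟨v, hv, hav⟩ := hex
    rcases hv with e | e | e
    · subst e; exact Or.inl hav
    · exact Or.inr (Or.inr ⟨v, e, hav⟩)
    · subst e; exact Or.inr (Or.inl hav)
  obtain ⟨l1, f, l2, hO, -, -, -, -⟩ := hC V G (PV b lb b') (fun v => G.Adj a v) b b' lb hpk hex'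
  have bK := hO.aK
  have fK := hO.fK
  have b'K := hO.wK
  have l1K := hO.l1K
  have l2K := hO.l2K
  obtain ⟨bl1, fl1⟩ := qcd_ends hO.p1
  obtain ⟨fl2, b'l2⟩ := qcd_ends hO.p2
  have aP : ∀ u ∈ PV b lb b', a ≠ u := fun u hu e => (hx hu).2 (e ▸ xa)
  -- edges
  have e01 := xy
  have e02 := xz
  have e12 := yz
  have e32 := zm.symm
  have e42 := zm'.symm
  have e34 := mm'
  have e50 := xa.symm
  have e53 := ma.symm
  have e61 := hArm.yb.symm
  have e48 := hArm.mb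
  have e57 : G.Adj a f := hO.ff
  -- nonadjacent pairs
  have fs : ∀ {s u : V}, u ∈ Far G s → s ≠ u ∧ ¬ G.Adj s u := fun h => ⟨fun e => h.1 e.symm, h.2⟩
  have fr : ∀ {s u : V}, u ∈ Far G s → u ≠ s ∧ ¬ G.Adj u s :=
    fun h => ⟨h.1, fun h' => h.2 h'.symm⟩
  have d30 := fr mFx
  have d31 := fr mFy
  have d40 := fr m'Fx
  have d41 := fr m'Fy
  have d51 := fr aFy
  have d52 := fr aFz
  have d06 := fs (hx bK)
  have d26 := fs (hz bK)
  have d07 := fs (hx fK)
  have d27 := fs (hz fK)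
  have d08 := fs (hx b'K)
  have d28 := fs (hz b'K)
  have d36 := fs (hm bK)
  have d37 := fs (hm fK)
  have d38 := fs (hm b'K)
  -- different
  have n56 := aP b bK
  have n57 := aP f fK
  have n58 := aP b' b'K
  have n17 : y ≠ f := fun e => (hArm.ny f fK).1 e.symm
  have n18 : y ≠ b' := fun e => (hArm.ny b' b'K).1 e.symm
  have n54 : a ≠ m' := fun e => aFz.2 (e ▸ zm')
  -- conditional
  have c17 : b ≠ f → y ≠ f ∧ ¬ G.Adj y f := fun h =>
    ⟨n17, fun h' => h ((hArm.ny f fK).2 h').symm⟩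
  have c18 : b ≠ b' → y ≠ b' ∧ ¬ G.Adj y b' := fun h =>
    ⟨n18, fun h' => h ((hArm.ny b' b'K).2 h').symm⟩
  have c46 : b ≠ b' → m' ≠ b ∧ ¬ G.Adj m' b := fun h =>
    ⟨fun e => (hArm.nm b bK).1 e.symm, fun h' => h ((hArm.nm b bK).2 h')⟩
  have c47 : f ≠ b' → m' ≠ f ∧ ¬ G.Adj m' f := fun h =>
    ⟨fun e => (hArm.nm f fK).1 e.symm, fun h' => h ((hArm.nm f fK).2 h')⟩
  have c65 : b ≠ f → b ≠ a ∧ ¬ G.Adj b a := fun h =>
    ⟨fun e => n56 e.symm, fun h' => hO.ft h h'.symm⟩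
  have c68 : b ≠ f → f ≠ b' → b ≠ b' ∧ ¬ G.Adj b b' := hO.aw
  have k1 : b ≠ f → b ≠ b' := by
    intro h
    by_cases h2 : f = b'
    · exact h2 ▸ h
    · exact (hO.aw h h2).1
  have k2 : f ≠ b' → b ≠ b' := by
    intro h
    by_cases h2 : b = f
    · exact h2 ▸ h
    · exact (hO.aw h2 h).1
  -- vertices not on the paths
  have s0 : ∀ u ∈ PV b lb b', x ≠ u := fun u hu e => (hx hu).1 e.symm
  have s1 : ∀ u ∈ PV b lb b', y ≠ u := fun u hu e => (hArm.ny u hu).1 e.symm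
  have s2 : ∀ u ∈ PV b lb b', z ≠ u := fun u hu e => (hz hu).1 e.symm
  have s3 : ∀ u ∈ PV b lb b', m ≠ u := fun u hu e => (hm hu).1 e.symm
  have s4 : ∀ u ∈ PV b lb b', m' ≠ u := fun u hu e => (hArm.nm u hu).1 e.symm
  have p10 : x ∉ l1 := fun h => s0 x (l1K x h) rfl
  have p11 : y ∉ l1 := fun h => s1 y (l1K y h) rfl
  have p12 : z ∉ l1 := fun h => s2 z (l1K z h) rfl
  have p13 : m ∉ l1 := fun h => s3 m (l1K m h) rfl
  have p14 : m' ∉ l1 := fun h => s4 m' (l1K m' h) rfl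
  have p15 : a ∉ l1 := fun h => aP a (l1K a h) rfl
  have p18 : b' ∉ l1 := by
    intro h
    by_cases h2 : f = b'
    · exact fl1 (h2 ▸ h)
    · exact (hO.l1w h2 b' h).1 rfl
  have p20 : x ∉ l2 := fun h => s0 x (l2K x h) rfl
  have p21 : y ∉ l2 := fun h => s1 y (l2K y h) rfl
  have p22 : z ∉ l2 := fun h => s2 z (l2K z h) rfl
  have p23 : m ∉ l2 := fun h => s3 m (l2K m h) rfl
  have p24 : m' ∉ l2 := fun h => s4 m' (l2K m' h) rfl
  have p25 : a ∉ l2 := fun h => aP a (l2K a h) rfl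
  have p26 : b ∉ l2 := by
    intro h
    by_cases h2 : b = f
    · exact fl2 (h2 ▸ h)
    · exact (hO.al2 h2 b h).1 rfl
  -- clean paths
  have q10 : ∀ u ∈ l1, ¬ G.Adj x u := fun u hu => (hx (l1K u hu)).2
  have q11 : ∀ u ∈ l1, ¬ G.Adj y u := fun u hu h =>
    bl1 ((hArm.ny u (l1K u hu)).2 h ▸ hu)
  have q12 : ∀ u ∈ l1, ¬ G.Adj z u := fun u hu => (hz (l1K u hu)).2
  have q13 : ∀ u ∈ l1, ¬ G.Adj m u := fun u hu => (hm (l1K u hu)).2
  have q14 : ∀ u ∈ l1, ¬ G.Adj m' u := fun u hu h =>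
    p18 ((hArm.nm u (l1K u hu)).2 h ▸ hu)
  have q15 : ∀ u ∈ l1, ¬ G.Adj a u := hO.fl
  have q18 : b' ≠ f → ∀ u ∈ l1, ¬ G.Adj b' u := fun h u hu h' =>
    (hO.l1w (fun e => h e.symm) u hu).2 h'.symm
  have q20 : ∀ u ∈ l2, ¬ G.Adj x u := fun u hu => (hx (l2K u hu)).2
  have q21 : ∀ u ∈ l2, ¬ G.Adj y u := fun u hu h =>
    p26 ((hArm.ny u (l2K u hu)).2 h ▸ hu)
  have q22 : ∀ u ∈ l2, ¬ G.Adj z u := fun u hu => (hz (l2K u hu)).2
  have q23 : ∀ u ∈ l2, ¬ G.Adj m u := fun u hu => (hm (l2K u hu)).2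
  have q24 : ∀ u ∈ l2, ¬ G.Adj m' u := fun u hu h =>
    b'l2 ((hArm.nm u (l2K u hu)).2 h ▸ hu)
  have q26 : b ≠ f → ∀ u ∈ l2, ¬ G.Adj b u := fun h u hu => (hO.al2 h u hu).2
  have t1 : b = f → l1 = [] := qcd_tri hO.p1
  have t2 : f = b' → l2 = [] := qcd_tri hO.p2
  have r1 : b ≠ f → IPt G (b :: (l1 ++ [f])) := qcd_pth hO.p1
  have r2 : f ≠ b' → IPt G (f :: (l2 ++ [b'])) := qcd_pth hO.p2
  refine hN preCid (by simp [preCs]) (fun i => ([x, y, z, m, m', a, b, f, b'] : List V).getD i x)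
    [l1, l2] ⟨?_, ?_, ?_, ?_, ?_, rfl, ?_, ?_, ?_, ?_, ?_⟩
  · intro w hw; fin_cases hw <;> assumption
  · intro w hw; fin_cases hw <;> assumption
  · intro w hw; fin_cases hw <;> assumption
  · intro w hw
    fin_cases hw
    · intro h; exact c17 (h (6, 7) (by simp))
    · intro h; exact c18 (h (6, 8) (by simp))
    · intro h; exact c46 (h (6, 8) (by simp))
    · intro h; exact c47 (h (7, 8) (by simp))
    · intro h; exact c65 (h (6, 7) (by simp))
    · intro h; exact c68 (h (6, 7) (by simp)) (h (7, 8) (by simp))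
  · intro w hw
    fin_cases hw
    · intro h; exact k1 (h (6, 7) (by simp))
    · intro h; exact k2 (h (7, 8) (by simp))
  · intro w hw; fin_cases hw <;> assumption
  · intro w hw; fin_cases hw <;> assumption
  · intro w hw i hi
    have hi' : i < 9 := hi
    fin_cases hw <;> interval_cases i <;> assumption
  · intro w hw i hi hU h1 h2
    have hi' : i < 9 := hi
    fin_cases hw <;> interval_cases i <;>
      first
      | assumption
      | exact absurd rfl h1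
      | exact absurd rfl h2
      | exact q18 h2
      | exact q26 h1
      | exact absurd (by simp) hU
  · simp only [List.pairwise_cons, List.mem_cons, List.not_mem_nil, or_false, forall_eq,
      List.Pairwise.nil, and_true, false_imp_iff, implies_true]
    exact hO.l12

end Pool.Agent.Helper64.FL
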